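import Pool.Agent.H97R2.LPB.Props

open Polynomial Filter Topology MeasureTheory Pool.Agent.H337R2 Pool.Agent.LP

namespace Pool.Agent.LPB

namespace H251

lemma aeval_lin (z : ℂ) (i : ℕ) : aeval z (X + C (i : ℚ)) = z + i := by
  simp

lemma aeval_An (z : ℂ) (a : ℕ) : aeval z (An a) = ∏ i ∈ Finset.range a, (z + i) := by
  unfold An
  rw [map_prod]
  exact Finset.prod_congr rfl fun i _ => aeval_lin z i

lemma aeval_Pn (z : ℂ) (a b : ℕ) : aeval z (Pn a b) = ∏ k ∈ Finset.Icc a b, (z + k) := by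
  unfold Pn
  rw [map_prod]
  exact Finset.prod_congr rfl fun i _ => aeval_lin z i

lemma re_zl (y : ℝ) (k : ℕ) : (zl y + k).re = 1 / 2 + k := by
  simp [zl]

lemma half_le (y : ℝ) (k : ℕ) : 1 / 2 ≤ ‖zl y + k‖ := by
  have h1 := Complex.abs_re_le_norm (zl y + k)
  rw [re_zl] at h1
  have h2 : (0 : ℝ) ≤ k := Nat.cast_nonneg k
  have h3 := le_abs_self (1 / 2 + (k : ℝ))
  linarith

lemma norm_le (y : ℝ) (k : ℕ) : ‖zl y + k‖ ≤ k + 1 + |y| := by
  have h0 : zl y + k = (1 / 2 : ℂ) + (y : ℂ) * Complex.I + (k : ℂ) := rfl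
  have h1 := norm_add_le ((1 / 2 : ℂ) + (y : ℂ) * Complex.I) (k : ℂ)
  have h5 := norm_add_le (1 / 2 : ℂ) ((y : ℂ) * Complex.I)
  have h2 : ‖(1 / 2 : ℂ)‖ = 1 / 2 := by norm_num
  have h3 : ‖(y : ℂ) * Complex.I‖ = |y| := by simp
  have h4 : ‖(k : ℂ)‖ = k := by simp
  rw [h2, h3] at h5
  rw [h4] at h1
  rw [h0]
  linarith

lemma cont_zl : Continuous zl := by
  unfold zl
  fun_prop

lemma ww_eq (a b : ℕ) (y : ℝ) : ww a b y = (∏ i ∈ Finset.range a, ‖zl y + i‖) /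
    (∏ k ∈ Finset.Icc a b, ‖zl y + k‖) / Real.cosh (Real.pi * y) := by
  unfold ww
  rw [aeval_An, aeval_Pn, norm_prod, norm_prod]

lemma ww_pos (a b : ℕ) (y : ℝ) : 0 < ww a b y := by
  rw [ww_eq]
  have h : ∀ k : ℕ, 0 < ‖zl y + k‖ := fun k => by linarith [half_le y k]
  exact div_pos (div_pos (Finset.prod_pos fun i _ => h i) (Finset.prod_pos fun i _ => h i))
    (Real.cosh_pos _)

lemma ww_cont (a b : ℕ) : Continuous (ww a b) := by
  have h0 : ww a b = fun y => (∏ i ∈ Finset.range a, ‖zl y + i‖) /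
    (∏ k ∈ Finset.Icc a b, ‖zl y + k‖) / Real.cosh (Real.pi * y) := by
    funext y
    exact ww_eq a b y
  have h1 : ∀ k : ℕ, Continuous fun y => ‖zl y + k‖ := fun k =>
    (cont_zl.add continuous_const).norm
  have h2 : ∀ y (k : ℕ), ‖zl y + k‖ ≠ 0 := fun y k => by
    have := half_le y k
    intro h
    rw [h] at this
    norm_num at this
  rw [h0]
  refine Continuous.div (Continuous.div ?_ ?_ ?_) ?_ ?_
  · exact continuous_finsetProd _ fun i _ => h1 i
  · exact continuous_finsetProd _ fun i _ => h1 i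
  · intro y
    exact Finset.prod_ne_zero_iff.2 fun k _ => h2 y k
  · exact Real.continuous_cosh.comp (continuous_const.mul continuous_id)
  · intro y
    exact (Real.cosh_pos _).ne'

lemma cosh_ge (y : ℝ) : Real.exp |y| / 2 ≤ Real.cosh (Real.pi * y) := by
  rw [← Real.cosh_abs, abs_mul, abs_of_pos Real.pi_pos, Real.cosh_eq]
  have h1 : |y| ≤ Real.pi * |y| := by
    have h2 := Real.pi_gt_three
    have h3 := abs_nonneg y
    nlinarith
  have h2 := Real.exp_le_exp.2 h1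
  have h3 := Real.exp_pos (-(Real.pi * |y|))
  linarith

lemma num_le (a : ℕ) (y : ℝ) : ∏ i ∈ Finset.range a, ‖zl y + i‖ ≤
    ((a + 1 : ℝ) * (1 + |y|)) ^ a := by
  have h1 : ∏ i ∈ Finset.range a, ‖zl y + i‖ ≤
      ∏ _i ∈ Finset.range a, ((a + 1 : ℝ) * (1 + |y|)) := by
    refine Finset.prod_le_prod (fun i _ => norm_nonneg _) fun i hi => ?_
    have h2 := norm_le y i
    have h3 : (i : ℝ) ≤ a := Nat.cast_le.2 (Finset.mem_range.1 hi).le
    have h4 := abs_nonneg y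
    have h5 : (0 : ℝ) ≤ a := Nat.cast_nonneg a
    nlinarith [mul_nonneg h5 h4]
  rw [Finset.prod_const, Finset.card_range] at h1
  exact h1

lemma den_ge (a b : ℕ) (y : ℝ) : (1 / 2 : ℝ) ^ (Finset.Icc a b).card ≤
    ∏ k ∈ Finset.Icc a b, ‖zl y + k‖ := by
  rw [← Finset.prod_const]
  exact Finset.prod_le_prod (fun i _ => by norm_num) fun i _ => half_le y i

lemma poly_le (q : ℝ[X]) : ∃ K : ℝ, 0 ≤ K ∧ ∀ y : ℝ, |q.eval y| ≤ K * (1 + |y|) ^ q.natDegree := by
  refine ⟨∑ i ∈ Finset.range (q.natDegree + 1), |q.coeff i|,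
    Finset.sum_nonneg fun i _ => abs_nonneg _, ?_⟩
  intro y
  rw [Polynomial.eval_eq_sum_range, Finset.sum_mul]
  refine (Finset.abs_sum_le_sum_abs _ _).trans (Finset.sum_le_sum fun i hi => ?_)
  rw [abs_mul, abs_pow]
  refine mul_le_mul_of_nonneg_left ?_ (abs_nonneg _)
  have h1 : |y| ^ i ≤ (1 + |y|) ^ i := pow_le_pow_left₀ (abs_nonneg y) (by linarith) i
  have h2 : (1 + |y|) ^ i ≤ (1 + |y|) ^ q.natDegree :=
    pow_le_pow_right₀ (by linarith [abs_nonneg y]) (Nat.lt_succ_iff.1 (Finset.mem_range.1 hi))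
  exact h1.trans h2

lemma exp_bound (N : ℕ) (y : ℝ) : (1 + |y|) ^ N / Real.exp |y| ≤
    ((N + 2).factorial * Real.exp 1) * (1 + y ^ 2)⁻¹ := by
  have h0 : 0 ≤ 1 + |y| := by linarith [abs_nonneg y]
  have h1 := Real.pow_div_factorial_le_exp (1 + |y|) h0 (N + 2)
  have hf : (0 : ℝ) < (N + 2).factorial := by exact_mod_cast Nat.factorial_pos _
  rw [div_le_iff₀ hf, Real.exp_add] at h1
  have h2 : 0 < Real.exp |y| := Real.exp_pos _
  have h3 : 1 + y ^ 2 ≤ (1 + |y|) ^ 2 := by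
    have := abs_nonneg y
    nlinarith [sq_abs y]
  have h4 : 0 < 1 + y ^ 2 := by positivity
  rw [div_le_iff₀ h2]
  have h5 : (1 + |y|) ^ N * (1 + y ^ 2) ≤ (N + 2).factorial * Real.exp 1 * Real.exp |y| := by
    calc (1 + |y|) ^ N * (1 + y ^ 2) ≤ (1 + |y|) ^ N * (1 + |y|) ^ 2 :=
          mul_le_mul_of_nonneg_left h3 (pow_nonneg h0 N)
      _ = (1 + |y|) ^ (N + 2) := by rw [pow_add]
      _ ≤ Real.exp 1 * Real.exp |y| * (N + 2).factorial := h1
      _ = _ := by ring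
  calc (1 + |y|) ^ N = ((1 + |y|) ^ N * (1 + y ^ 2)) * (1 + y ^ 2)⁻¹ := by
        rw [mul_assoc, mul_inv_cancel₀ h4.ne', mul_one]
    _ ≤ ((N + 2).factorial * Real.exp 1 * Real.exp |y|) * (1 + y ^ 2)⁻¹ :=
        mul_le_mul_of_nonneg_right h5 (inv_nonneg.2 h4.le)
    _ = _ := by ring

lemma ww_le (a b : ℕ) (y : ℝ) : ww a b y ≤
    ((a + 1 : ℝ) ^ a * 2 ^ ((Finset.Icc a b).card + 1)) * ((1 + |y|) ^ a / Real.exp |y|) := by
  rw [ww_eq]
  have hd : (0 : ℝ) < (1 / 2 : ℝ) ^ (Finset.Icc a b).card := by positivity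
  have h0 : 0 ≤ 1 + |y| := by linarith [abs_nonneg y]
  have h1 : (∏ i ∈ Finset.range a, ‖zl y + i‖) / (∏ k ∈ Finset.Icc a b, ‖zl y + k‖) ≤
      ((a + 1 : ℝ) * (1 + |y|)) ^ a / (1 / 2 : ℝ) ^ (Finset.Icc a b).card :=
    div_le_div₀ (by positivity) (num_le a y) hd (den_ge a b y)
  have h2 : 0 < Real.exp |y| / 2 := by positivity
  refine (div_le_div₀ (by positivity) h1 h2 (cosh_ge y)).trans (le_of_eq ?_)
  rw [mul_pow, one_div, inv_pow, div_inv_eq_mul, pow_succ]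
  field_simp

end H251

theorem G1_cont : S_cont := fun a b => ⟨H251.ww_cont a b, H251.ww_pos a b⟩

theorem G1_int : S_int := by
  intro a b _ q
  obtain ⟨K, hK, hq⟩ := H251.poly_le q
  set M : ℝ := (a + 1 : ℝ) ^ a * 2 ^ ((Finset.Icc a b).card + 1) with hM
  have hM0 : 0 ≤ M := by positivity
  have h1 : Integrable (fun y : ℝ => (K * M * ((q.natDegree + a + 2).factorial * Real.exp 1)) *
      (1 + y ^ 2)⁻¹) := integrable_inv_one_add_sq.const_mul _
  refine h1.mono' ?_ (Eventually.of_forall fun y => ?_)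
  · exact (q.continuous.mul (H251.ww_cont a b)).aestronglyMeasurable
  · rw [Real.norm_eq_abs, abs_mul, abs_of_pos (H251.ww_pos a b y)]
    have h0 : 0 ≤ 1 + |y| := by linarith [abs_nonneg y]
    have h2 : |q.eval y| * ww a b y ≤ (K * (1 + |y|) ^ q.natDegree) *
        (M * ((1 + |y|) ^ a / Real.exp |y|)) :=
      mul_le_mul (hq y) (H251.ww_le a b y) (H251.ww_pos a b y).le (by positivity)
    have h3 := H251.exp_bound (q.natDegree + a) y
    calc |q.eval y| * ww a b y ≤ (K * (1 + |y|) ^ q.natDegree) *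
        (M * ((1 + |y|) ^ a / Real.exp |y|)) := h2
      _ = (K * M) * ((1 + |y|) ^ (q.natDegree + a) / Real.exp |y|) := by
          rw [pow_add]
          ring
      _ ≤ (K * M) * (((q.natDegree + a + 2).factorial * Real.exp 1) * (1 + y ^ 2)⁻¹) :=
          mul_le_mul_of_nonneg_left h3 (by positivity)
      _ = _ := by ring

end Pool.Agent.LPB
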